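import Pool.Agent.Helper23.SP.Basic

set_option autoImplicit false

/-!
# SP-D: elements with a mate in their fibre
-/

namespace Pool.Agent.Helper30.SP

open Finset
open Pool.Agent.Helper23.SP

/-- The elements whose fibre has at least two elements number at most `2 (|R| - |f(R)|)`. -/
lemma card_mates {α β : Type} [DecidableEq α] [DecidableEq β] (R : Finset α) (f : α → β) :
    (R.filter (fun e => 2 ≤ (R.filter (fun a => f a = f e)).card)).card + 2 * (R.image f).card
      ≤ 2 * R.card := by
  have h1 : (R.filter (fun e => 2 ≤ (R.filter (fun a => f a = f e)).card)).card =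
      ∑ u ∈ R.image f, ((R.filter (fun e => 2 ≤ (R.filter (fun a => f a = f e)).card)).filter
        (fun a => f a = u)).card := by
    refine card_eq_sum_card_fiberwise ?_
    intro e he
    exact mem_coe.2 (mem_image_of_mem f (mem_filter.1 (mem_coe.1 he)).1)
  have h2 : R.card = ∑ u ∈ R.image f, (R.filter (fun a => f a = u)).card :=
    card_eq_sum_card_image f R
  have h3 : 2 * (R.image f).card = ∑ u ∈ R.image f, 2 := by
    rw [sum_const, smul_eq_mul, mul_comm]
  rw [h1, h3, ← sum_add_distrib]
  calc ∑ u ∈ R.image f, (((R.filter (fun e => 2 ≤ (R.filter (fun a => f a = f e)).card)).filter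
        (fun a => f a = u)).card + 2) ≤ ∑ u ∈ R.image f, 2 * (R.filter (fun a => f a = u)).card := by
        refine sum_le_sum ?_
        intro u hu
        obtain ⟨e0, he0, rfl⟩ := mem_image.1 hu
        have hpos : 1 ≤ (R.filter (fun a => f a = f e0)).card :=
          card_pos.2 ⟨e0, mem_filter.2 ⟨he0, rfl⟩⟩
        by_cases hc : 2 ≤ (R.filter (fun a => f a = f e0)).card
        · have : ((R.filter (fun e => 2 ≤ (R.filter (fun a => f a = f e)).card)).filter
              (fun a => f a = f e0)).card ≤ (R.filter (fun a => f a = f e0)).card :=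
            card_le_card (filter_subset_filter _ (filter_subset _ _))
          omega
        · have : (R.filter (fun e => 2 ≤ (R.filter (fun a => f a = f e)).card)).filter
              (fun a => f a = f e0) = ∅ := by
            rw [filter_eq_empty_iff]
            intro e he hfe
            rw [mem_filter, hfe] at he
            exact hc he.2
          rw [this, card_empty]
          omega
    _ = 2 * R.card := by rw [← mul_sum, ← h2]

variable {El V : Type} [Fintype El] [DecidableEq El] {k b U : ℕ} [NeZero b]

/-- SP-D. -/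
theorem rev_succ_card (P : Proc El k b U V) (ω : Om El k b U) (r : Fin k) (t0 : ℕ) (v : V)
    (τ x0 : ℕ) (h : (P.rev ω t0 v τ r.val).card <
      x0 + ((P.rev ω t0 v τ r.val).image (g r ω)).card) :
    (P.rev ω t0 v τ (r.val + 1)).card ≤ 2 * x0 := by
  have hsub : P.rev ω t0 v τ (r.val + 1) ⊆ (P.rev ω t0 v τ r.val).filter
      (fun e => 2 ≤ ((P.rev ω t0 v τ r.val).filter (fun a => g r ω a = g r ω e)).card) := by
    intro e he
    rw [mem_rev] at he
    obtain ⟨i, hi, hp, hs⟩ := he
    have hmem : ∀ e', e' ∈ supp (P.γ (t0 + i) (P.st ω t0 v i)) → e' ∈ P.rev ω t0 v τ r.val := by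
      intro e' he'
      rw [mem_rev]
      exact ⟨i, hi, hp.mono (Nat.le_succ _), he'⟩
    have hsum := hp r (Nat.lt_succ_self _) (g r ω e)
    have hex : ∃ e' ∈ univ.filter (fun e' => g r ω e' = g r ω e), e' ≠ e ∧
        P.γ (t0 + i) (P.st ω t0 v i) e' ≠ 0 := by
      by_contra hcon
      push Not at hcon
      rw [sum_eq_single e (fun b hb hbe => hcon b hb hbe)
        (fun hne => absurd (mem_filter.2 ⟨mem_univ e, (rfl : g r ω e = g r ω e)⟩) hne)] at hsum
      exact (mem_supp.1 hs) hsum
    obtain ⟨e', he', hne, hγ⟩ := hex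
    rw [mem_filter]
    refine ⟨hmem e hs, ?_⟩
    have : 1 < ((P.rev ω t0 v τ r.val).filter (fun a => g r ω a = g r ω e)).card := by
      rw [one_lt_card]
      refine ⟨e', ?_, e, ?_, hne⟩
      · rw [mem_filter]
        exact ⟨hmem e' (mem_supp.2 hγ), (mem_filter.1 he').2⟩
      · rw [mem_filter]
        exact ⟨hmem e hs, rfl⟩
    omega
  have h1 := card_le_card hsub
  have h2 := card_mates (P.rev ω t0 v τ r.val) (g r ω)
  omega

end Pool.Agent.Helper30.SP
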